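import Mathlib
import Pool.Agent.D0H91.GI.Stm

/-! # Project GI, module AS: the weights asymptotically -/

set_option autoImplicit false

namespace Pool.Agent.D0H65.GI

open Finset MeasureTheory Filter Topology
open Pool.Agent.D0H91.GI

theorem log4 : Tendsto (fun x : ℝ => Real.log (4 * x) / x) atTop (𝓝 0) := by
  have h1 : Tendsto (fun x : ℝ => Real.log x / x) atTop (𝓝 0) :=
    Real.isLittleO_log_id_atTop.tendsto_div_nhds_zero
  have h2 : Tendsto (fun x : ℝ => 4 * x) atTop atTop :=
    tendsto_id.const_mul_atTop (by norm_num)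
  have h3 := (h1.comp h2).const_mul 4
  rw [mul_zero] at h3
  refine h3.congr fun x => ?_
  simp only [Function.comp]
  rcases eq_or_ne x 0 with rfl | hx
  · simp
  · field_simp

theorem log_pi : Tendsto (fun n : ℕ => Real.log (Nat.primeCounting n) / Real.log n) atTop (𝓝 1) := by
  have hlog : Tendsto (fun n : ℕ => Real.log n) atTop atTop :=
    Real.tendsto_log_atTop.comp tendsto_natCast_atTop_atTop
  have h1 : Tendsto (fun n : ℕ => 1 - Real.log (4 * Real.log n) / Real.log n) atTop (𝓝 1) := by
    have := (log4.comp hlog).const_sub 1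
    rwa [sub_zero] at this
  have h2 : ∀ᶠ n : ℕ in atTop, Real.log (n + 1) ≤ n / 4 := by
    have h3 : Tendsto (fun x : ℝ => Real.log x / x) atTop (𝓝 0) :=
      Real.isLittleO_log_id_atTop.tendsto_div_nhds_zero
    have h4 : Tendsto (fun n : ℕ => ((n : ℝ) + 1)) atTop atTop :=
      tendsto_atTop_add_const_right _ _ tendsto_natCast_atTop_atTop
    have h5 := (h3.comp h4).eventually (gt_mem_nhds (show (0 : ℝ) < 1 / 8 by norm_num))
    filter_upwards [h5, eventually_ge_atTop 1] with n hn hn1
    have hn1' : (1 : ℝ) ≤ n := by exact_mod_cast hn1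
    simp only [Function.comp] at hn
    rw [div_lt_iff₀ (by positivity)] at hn
    linarith
  refine tendsto_of_tendsto_of_tendsto_of_le_of_le' h1 tendsto_const_nhds ?_ ?_
  · filter_upwards [h2, eventually_ge_atTop 3] with n hn hn3
    have hn3' : (3 : ℝ) ≤ n := by exact_mod_cast hn3
    have hl : 0 < Real.log n := Real.log_pos (by linarith)
    have h3 : (n : ℝ) / 4 ≤ Nat.primeCounting n * Real.log n := by
      have h4 := Chebyshev.psi_ge n
      have h5 := Chebyshev.psi_le_primeCounting_mul_log n
      have h6 := Real.log_two_gt_d9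
      nlinarith
    have h7 : (n : ℝ) / (4 * Real.log n) ≤ Nat.primeCounting n := by
      rw [div_le_iff₀ (by positivity)]
      linarith
    have h8 : Real.log n - Real.log (4 * Real.log n) ≤ Real.log (Nat.primeCounting n) := by
      rw [← Real.log_div (by positivity) (by positivity)]
      exact Real.log_le_log (by positivity) h7
    rw [le_div_iff₀ hl, sub_mul, div_mul_cancel₀ _ hl.ne', one_mul]
    exact h8
  · filter_upwards [eventually_ge_atTop 3] with n hn3
    have hn3' : (3 : ℝ) ≤ n := by exact_mod_cast hn3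
    have hl : 0 < Real.log n := Real.log_pos (by linarith)
    rw [div_le_one hl]
    rcases Nat.eq_zero_or_pos (Nat.primeCounting n) with h | h
    · rw [h]
      simp only [Nat.cast_zero, Real.log_zero]
      exact hl.le
    · refine Real.log_le_log (by exact_mod_cast h) ?_
      have h9 : Nat.primeCounting n ≤ n := by
        rw [Nat.primeCounting, Nat.primeCounting', Nat.count_eq_card_filter_range]
        have h10 : (Finset.range (n + 1)).filter Nat.Prime ⊆ Finset.Icc 1 n := by
          intro p hp
          rw [Finset.mem_filter, Finset.mem_range] at hp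
          rw [Finset.mem_Icc]
          exact ⟨hp.2.one_lt.le, by omega⟩
        have h11 := Finset.card_le_card h10
        simpa using h11
      exact_mod_cast h9

theorem pr_ge (m : ℕ) : m ≤ pr m := by
  unfold pr
  split_ifs with h
  · omega
  · have := Nat.add_two_le_nth_prime (m - 1)
    omega

theorem pr_tendsto : Tendsto pr atTop atTop := tendsto_atTop_mono pr_ge tendsto_id

theorem pi_pr (m : ℕ) (hm : 1 ≤ m) : Nat.primeCounting (pr m) = m := by
  unfold pr
  rw [if_neg (by omega), Nat.primeCounting, Nat.primeCounting', Nat.count_succ,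
    Nat.count_nth_of_infinite Nat.infinite_setOfPred_prime, if_pos (Nat.prime_nth_prime _)]
  omega

theorem log_pr : Tendsto (fun m : ℕ => Real.log m / Real.log (pr m)) atTop (𝓝 1) := by
  have h1 := log_pi.comp pr_tendsto
  refine h1.congr' ?_
  filter_upwards [eventually_ge_atTop 1] with m hm
  simp only [Function.comp]
  rw [pi_pr m hm]

theorem log_lin (α : ℝ) (hα : 0 < α) :
    Tendsto (fun q : ℕ => Real.log (α * q) / Real.log q) atTop (𝓝 1) := by
  have hlog : Tendsto (fun n : ℕ => Real.log n) atTop atTop :=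
    Real.tendsto_log_atTop.comp tendsto_natCast_atTop_atTop
  have h1 : Tendsto (fun n : ℕ => Real.log α / Real.log n + 1) atTop (𝓝 (0 + 1)) :=
    (hlog.const_div_atTop _).add tendsto_const_nhds
  rw [zero_add] at h1
  refine h1.congr' ?_
  filter_upwards [eventually_ge_atTop 3] with n hn3
  have hn3' : (3 : ℝ) ≤ n := by exact_mod_cast hn3
  have hl : 0 < Real.log n := Real.log_pos (by linarith)
  rw [Real.log_mul hα.ne' (by positivity), add_div, div_self hl.ne']

theorem floor_tendsto (α : ℝ) (hα : 0 < α) : Tendsto (fun q : ℕ => ⌊α * q⌋₊) atTop atTop :=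
  tendsto_nat_floor_atTop.comp (tendsto_natCast_atTop_atTop.const_mul_atTop hα)

theorem log_floor (α : ℝ) (hα : 0 < α) :
    Tendsto (fun q : ℕ => Real.log (⌊α * q⌋₊ : ℕ) / Real.log q) atTop (𝓝 1) := by
  refine tendsto_of_tendsto_of_tendsto_of_le_of_le' (log_lin (α / 2) (by positivity))
    (log_lin α hα) ?_ ?_
  · filter_upwards [eventually_ge_atTop 3, (floor_tendsto α hα).eventually (eventually_ge_atTop 1)]
      with n hn3 hn4
    have hn3' : (3 : ℝ) ≤ n := by exact_mod_cast hn3
    have hl : 0 < Real.log n := Real.log_pos (by linarith)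
    have h5 : (1 : ℝ) ≤ (⌊α * n⌋₊ : ℕ) := by exact_mod_cast hn4
    have h6 := Nat.lt_floor_add_one (α * (n : ℝ))
    refine div_le_div_of_nonneg_right (Real.log_le_log (by positivity) ?_) hl.le
    linarith
  · filter_upwards [eventually_ge_atTop 3, (floor_tendsto α hα).eventually (eventually_ge_atTop 1)]
      with n hn3 hn4
    have hn3' : (3 : ℝ) ≤ n := by exact_mod_cast hn3
    have hl : 0 < Real.log n := Real.log_pos (by linarith)
    have h5 : (0 : ℝ) < (⌊α * n⌋₊ : ℕ) := by exact_mod_cast hn4
    exact div_le_div_of_nonneg_right (Real.log_le_log h5 (Nat.floor_le (by positivity))) hl.le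

theorem log_step (α : ℝ) (hα : 0 < α) :
    Tendsto (fun q : ℕ => Real.log q / Real.log (pr ⌊α * q⌋₊)) atTop (𝓝 1) := by
  have h1 := log_pr.comp (floor_tendsto α hα)
  have h2 := (log_floor α hα).inv₀ one_ne_zero
  have h3 := h2.mul h1
  rw [inv_one, one_mul] at h3
  refine h3.congr' ?_
  filter_upwards [(floor_tendsto α hα).eventually (eventually_ge_atTop 2)] with q hq
  have h4 : (2 : ℝ) ≤ (⌊α * q⌋₊ : ℕ) := by exact_mod_cast hq
  have hl : 0 < Real.log (⌊α * q⌋₊ : ℕ) := Real.log_pos (by linarith)
  simp only [Function.comp]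
  rw [inv_div, div_mul_div_cancel₀ hl.ne']

theorem as_main (l : List ℝ) : Pos l → Tendsto (fun q => ch l q) atTop atTop ∧
    Tendsto (fun q : ℕ => Real.log q / Real.log (ch l q)) atTop (𝓝 1) ∧
    Tendsto (fun q : ℕ => Real.log q * wt l q / (l.prod * Real.log (ch l q) ^ (l.length + 1))) atTop
      (𝓝 1) := by
  induction l with
  | nil =>
    intro _
    have h1 : ∀ᶠ q : ℕ in atTop, Real.log q / Real.log q = 1 := by
      filter_upwards [eventually_ge_atTop 3] with n hn3
      have hn3' : (3 : ℝ) ≤ n := by exact_mod_cast hn3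
      exact div_self (Real.log_pos (by linarith)).ne'
    refine ⟨tendsto_id, ?_, ?_⟩
    · refine tendsto_const_nhds.congr' ?_
      filter_upwards [h1] with q hq
      exact hq.symm
    · refine tendsto_const_nhds.congr' ?_
      filter_upwards [h1] with q hq
      simp only [ch, wt, List.prod_nil, List.length_nil, mul_one, one_mul, zero_add, pow_one]
      exact hq.symm
  | cons α l ih =>
    intro hl
    have hα : 0 < α := hl α List.mem_cons_self
    obtain ⟨h1, h2, h3⟩ := ih fun x hx => hl x (List.mem_cons_of_mem _ hx)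
    have hp : Tendsto (fun q : ℕ => pr ⌊α * q⌋₊) atTop atTop := pr_tendsto.comp (floor_tendsto α hα)
    have h4 : Tendsto (fun q : ℕ => Real.log q / Real.log (ch (α :: l) q)) atTop (𝓝 1) := by
      have h5 := (log_step α hα).mul (h2.comp hp)
      rw [one_mul] at h5
      refine h5.congr' ?_
      filter_upwards [hp.eventually (eventually_ge_atTop 2)] with q hq
      have h6 : (2 : ℝ) ≤ (pr ⌊α * q⌋₊ : ℕ) := by exact_mod_cast hq
      have hl : 0 < Real.log (pr ⌊α * q⌋₊ : ℕ) := Real.log_pos (by linarith)
      simp only [Function.comp, ch]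
      rw [div_mul_div_cancel₀ hl.ne']
    refine ⟨h1.comp hp, h4, ?_⟩
    have h5 := h4.mul (h3.comp hp)
    rw [one_mul] at h5
    refine h5.congr fun q => ?_
    simp only [Function.comp, ch, wt, List.prod_cons, List.length_cons]
    rw [div_mul_div_comm]
    have e1 : Real.log q * (α * Real.log (pr ⌊α * q⌋₊) * wt l (pr ⌊α * q⌋₊)) =
        α * (Real.log q * (Real.log (pr ⌊α * q⌋₊) * wt l (pr ⌊α * q⌋₊))) := by ring
    have e2 : α * l.prod * Real.log (ch l (pr ⌊α * q⌋₊)) ^ (l.length + 1 + 1) =
        α * (Real.log (ch l (pr ⌊α * q⌋₊)) *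
          (l.prod * Real.log (ch l (pr ⌊α * q⌋₊)) ^ (l.length + 1))) := by ring
    rw [e1, e2, mul_div_mul_left _ _ hα.ne']

/-- Module AS. -/
theorem t_AS : S_AS := fun l hl => ⟨(as_main l hl).1, (as_main l hl).2.2⟩

end Pool.Agent.D0H65.GI
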