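import Mathlib
import Pool.Agent.D0H91.GI.Stm
import Pool.Agent.D0H65.GI.As

/-! # Project GI, module I2: the integral over the samples -/

set_option autoImplicit false

namespace Pool.Agent.D0H65.GI

open Finset MeasureTheory Filter Topology
open Pool.Agent.W301.SS (om)
open Pool.Agent.D0H91.GI

theorem fl_ii (g : ℕ → ℝ) {x y : ℝ} (hxy : x ≤ y) :
    IntervalIntegrable (fun v : ℝ => g ⌊v⌋₊) volume x y := by
  have hm : Measurable fun v : ℝ => g ⌊v⌋₊ := (measurable_from_nat (f := g)).comp Nat.measurable_floor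
  rw [intervalIntegrable_iff, Set.uIoc_of_le hxy]
  refine Measure.integrableOn_of_bounded (M := ∑ m ∈ range (⌊y⌋₊ + 1), ‖g m‖) (by simp) hm.aestronglyMeasurable ?_
  refine (ae_restrict_iff' measurableSet_Ioc).2 (Filter.Eventually.of_forall fun u hu => ?_)
  refine Finset.single_le_sum (f := fun m => ‖g m‖) (fun _ _ => norm_nonneg _) ?_
  rw [Finset.mem_range, Nat.lt_succ_iff]
  exact Nat.floor_le_floor hu.2

theorem fl_piece (g : ℕ → ℝ) (M : ℕ) : ∫ v in (M : ℝ)..((M + 1 : ℕ) : ℝ), g ⌊v⌋₊ = g M := by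
  have hy : (M : ℝ) ≤ ((M + 1 : ℕ) : ℝ) := by push_cast; linarith
  have h2 : ∫ v in (M : ℝ)..((M + 1 : ℕ) : ℝ), g ⌊v⌋₊ = ∫ v in (M : ℝ)..((M + 1 : ℕ) : ℝ), g M := by
    apply intervalIntegral.integral_congr_ae
    have h3 : ∀ᵐ x : ℝ, x ≠ ((M + 1 : ℕ) : ℝ) := by
      rw [ae_iff]
      simp
    filter_upwards [h3] with x hx hx2
    rw [Set.uIoc_of_le hy] at hx2
    have h4 : ⌊x⌋₊ = M := by
      rw [Nat.floor_eq_iff (by have := hx2.1; have : (0 : ℝ) ≤ M := Nat.cast_nonneg M; linarith)]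
      refine ⟨hx2.1.le, ?_⟩
      have h5 := lt_of_le_of_ne hx2.2 hx
      push_cast at h5
      exact h5
    rw [h4]
  rw [h2, intervalIntegral.integral_const, smul_eq_mul]
  push_cast
  ring

theorem fl_int (g : ℕ → ℝ) (M : ℕ) : ∫ v in (0 : ℝ)..M, g ⌊v⌋₊ = ∑ m ∈ range M, g m := by
  induction M with
  | zero => simp
  | succ M ih =>
    have h1 := intervalIntegral.integral_add_adjacent_intervals (fl_ii g (Nat.cast_nonneg (α := ℝ) M))
      (fl_ii g (show (M : ℝ) ≤ ((M + 1 : ℕ) : ℝ) by push_cast; linarith))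
    rw [← h1, ih, fl_piece g M, Finset.sum_range_succ]

/-- the integral of a function of the integer part which vanishes from `K` on -/
theorem fl_tail (g : ℕ → ℝ) (K : ℕ) (hg : ∀ m, K ≤ m → g m = 0) {y : ℝ} (hy : (K : ℝ) ≤ y) :
    ∫ v in (0 : ℝ)..y, g ⌊v⌋₊ = ∑ m ∈ range K, g m := by
  have h1 := intervalIntegral.integral_add_adjacent_intervals (fl_ii g (Nat.cast_nonneg (α := ℝ) K))
      (fl_ii g hy)
  have h2 : ∫ v in (K : ℝ)..y, g ⌊v⌋₊ = ∫ v in (K : ℝ)..y, (0 : ℝ) := by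
    apply intervalIntegral.integral_congr
    intro v hv
    rw [Set.uIcc_of_le hy] at hv
    exact hg _ (Nat.le_floor hv.1)
  rw [← h1, fl_int, h2, intervalIntegral.integral_zero, add_zero]

theorem pr_inj {m m' : ℕ} (hm : 1 ≤ m) (hm' : 1 ≤ m') (h : pr m = pr m') : m = m' := by
  rw [← pi_pr m hm, ← pi_pr m' hm', h]

theorem pr_prime {m : ℕ} (hm : 1 ≤ m) : (pr m).Prime := by
  unfold pr
  rw [if_neg (by omega)]
  exact Nat.prime_nth_prime _

theorem pr_surj {q : ℕ} (hq : q.Prime) : ∃ m, 1 ≤ m ∧ pr m = q := by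
  refine ⟨Nat.count Nat.Prime q + 1, by omega, ?_⟩
  unfold pr
  rw [if_neg (by omega), Nat.add_sub_cancel]
  exact Nat.nth_count hq

theorem KK_pos (l : List ℝ) (hl : Pos l) : 1 ≤ KK l := by
  induction l with
  | nil => exact le_rfl
  | cons α l ih =>
    have hα : 0 < α := hl α List.mem_cons_self
    have h1 : 0 < ⌈1 / α⌉₊ := Nat.ceil_pos.2 (by positivity)
    unfold KK
    exact Nat.mul_pos h1 (Nat.succ_pos _)

/-- Module I2. -/
theorem t_I2 : S_TR → S_I2 := by
  intro hTR l hl M n α hα Z hZ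
  classical
  set K := KK l * n + 1 with hK
  have hsupp : ∀ m, K ≤ m → be l M n m = 0 := by
    intro m hm
    unfold be
    rw [if_neg]
    rintro ⟨h1, h2, h3⟩
    have h4 := hTR l hl (pr m) h2
    have h5 := pr_ge m
    have h6 : KK l * (ch l (pr m) + 1) ≤ KK l * n := Nat.mul_le_mul_left _ h3
    omega
  have hKy : (K : ℝ) ≤ α * Z := by
    have h1 : 1 ≤ α * ⌈1 / α⌉₊ := by
      have h2 := Nat.le_ceil (1 / α)
      rw [div_le_iff₀ hα] at h2
      linarith
    have h3 : ((⌈1 / α⌉₊ * (KK l + 1) * (n + 1) : ℕ) : ℝ) ≤ Z := by exact_mod_cast hZ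
    push_cast at h3
    have h4 : ((KK l : ℝ) + 1) * (n + 1) ≤ α * Z := by
      calc ((KK l : ℝ) + 1) * (n + 1) ≤ (α * ⌈1 / α⌉₊) * (((KK l : ℝ) + 1) * (n + 1)) :=
            le_mul_of_one_le_left (by positivity) h1
        _ = α * (⌈1 / α⌉₊ * ((KK l : ℝ) + 1) * (n + 1)) := by ring
        _ ≤ α * Z := mul_le_mul_of_nonneg_left h3 hα.le
    rw [hK]
    push_cast
    have h5 : (0 : ℝ) ≤ KK l := Nat.cast_nonneg _
    have h6 : (0 : ℝ) ≤ n := Nat.cast_nonneg _
    nlinarith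
  have hint : α * ∫ u in (0 : ℝ)..Z, be l M n ⌊α * u⌋₊ = ∑ m ∈ range K, be l M n m := by
    have h1 := intervalIntegral.integral_comp_mul_left (a := 0) (b := (Z : ℝ))
      (fun v : ℝ => be l M n ⌊v⌋₊) hα.ne'
    rw [mul_zero, smul_eq_mul] at h1
    rw [h1, mul_inv_cancel_left₀ hα.ne']
    exact fl_tail _ K hsupp hKy
  rw [hint]
  -- the left hand side as a sum over primes
  have hL : ∑ m ∈ range K, be l M n m = ∑ q ∈ (Icc 1 (KK l * n)).filter
      (fun q => q.Prime ∧ 0 < ch l q ∧ ch l q < n), Real.log q * wt l q * M (n - ch l q) := by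
    unfold be
    rw [← Finset.sum_filter]
    refine Finset.sum_bij (fun m _ => pr m) ?_ ?_ ?_ ?_
    · intro m hm
      rw [Finset.mem_filter, Finset.mem_range] at hm
      obtain ⟨h1, h2, h3, h4⟩ := hm
      have h5 := hTR l hl (pr m) h3
      have h6 : KK l * (ch l (pr m) + 1) ≤ KK l * n := Nat.mul_le_mul_left _ h4
      have h7 := pr_prime h2
      rw [Finset.mem_filter, Finset.mem_Icc]
      exact ⟨⟨h7.one_lt.le, h5.trans h6⟩, h7, h3, h4⟩
    · intro m hm m' hm' h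
      rw [Finset.mem_filter] at hm hm'
      exact pr_inj hm.2.1 hm'.2.1 h
    · intro q hq
      rw [Finset.mem_filter, Finset.mem_Icc] at hq
      obtain ⟨m, hm, hmq⟩ := pr_surj hq.2.1
      have h1 := pr_ge m
      refine ⟨m, ?_, hmq⟩
      rw [Finset.mem_filter, Finset.mem_range, hmq]
      rw [hmq] at h1
      exact ⟨by omega, by omega, hq.2.2⟩
    · intro m _
      rfl
  -- the right hand side
  have hR : ∑ u ∈ Ico 1 n, mu l u * M (n - u) = ∑ q ∈ Icc 1 (KK l * n),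
      ∑ u ∈ Ico 1 n, if ch l q = u then om q * wt l q * M (n - u) else 0 := by
    rw [Finset.sum_comm]
    refine Finset.sum_congr rfl fun u hu => ?_
    rw [Finset.mem_Ico] at hu
    unfold mu
    rw [Finset.sum_mul]
    have hsub : Icc 1 (KK l * (u + 1)) ⊆ Icc 1 (KK l * n) :=
      Finset.Icc_subset_Icc_right (Nat.mul_le_mul_left _ hu.2)
    rw [← Finset.sum_subset hsub]
    · refine Finset.sum_congr rfl fun q _ => ?_
      split_ifs
      · rfl
      · rw [zero_mul]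
    · intro q hq hq'
      rw [if_neg]
      intro h
      apply hq'
      rw [Finset.mem_Icc] at hq ⊢
      refine ⟨hq.1, ?_⟩
      have h1 := hTR l hl q (by omega)
      rwa [h] at h1
  rw [hL, hR, Finset.sum_filter]
  refine Finset.sum_congr rfl fun q _ => ?_
  rw [Finset.sum_ite_eq (Ico 1 n) (ch l q) (fun u => om q * wt l q * M (n - u))]
  unfold om
  by_cases h1 : q.Prime
  · by_cases h2 : 0 < ch l q ∧ ch l q < n
    · rw [if_pos ⟨h1, h2⟩, if_pos (Finset.mem_Ico.2 h2), if_pos h1]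
    · rw [if_neg (fun h => h2 h.2), if_neg (fun h => h2 (Finset.mem_Ico.1 h))]
  · rw [if_neg (fun h => h1 h.1), if_neg h1]
    split_ifs
    · rw [zero_mul, zero_mul]
    · rfl

end Pool.Agent.D0H65.GI
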